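import Pool.Agent.H92.J.Pr
import Pool.Agent.H92.I.Dat

set_option autoImplicit false

/-! The modulus and the class: the covering, for the shifts by multiples of the modulus. -/

namespace Pool.Agent.H92.J

open Finset Filter
open Pool.Agent.TH101.RG (V0)
open Pool.Agent.Y835.SC (big_card)
open Pool.Agent.R529.LG
open Pool.Agent.H92.I (Qfacts)

/-- the prime `p` has no other prime of its class modulo `q` within distance `q G` -/
def AloneC (q : ℕ) (G : ℝ) (p : ℕ) : Prop := ∀ p' : ℕ, p'.Prime → p' ≡ p [MOD q] → p' ≠ p → q * G < |(p' : ℝ) - p|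

open Classical in
theorem one_rowC {z Q q r H G t₀ y : ℕ} {b : ℕ → ℕ} {F : Finset ℕ} (hq : 0 < q) (hGt : G ≤ t₀) (htH : t₀ + G ≤ H)
    (hyz : y < z)
    (hrb : ∀ p : ℕ, p.Prime → p ≤ y → p ∉ F → p ∣ r + q * b p)
    (hQ : ∀ p : ℕ, p.Prime → p ≤ y → p ∉ F → p ∣ Q) (hqQ : q ∣ Q) {m : ℕ} (hm : z < m * Q)
    (hk : ∀ k ∈ (range (H + 1)).filter (fun k => ∀ p : ℕ, p.Prime → p ≤ y → p ∉ F →
      ¬ k ≡ b p [MOD p]), k ≠ t₀ → ¬ (m * Q + (r + q * k)).Prime) :
    AloneC q G (m * Q + (r + q * t₀)) := by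
  intro p' hp' hpq hne
  by_contra hcon
  push Not at hcon
  obtain ⟨k, hkH, hkt, hkd⟩ : ∃ k, k ≤ H ∧ k ≠ t₀ ∧ p' = m * Q + (r + q * k) := by
    rcases le_total p' (m * Q + (r + q * t₀)) with h | h
    · obtain ⟨j, hj⟩ := (Nat.modEq_iff_dvd' h).1 hpq
      have h1 : (m * Q + (r + q * t₀) : ℕ) = p' + q * j := by omega
      have h2 : (q : ℝ) * j ≤ q * G := by
        have h3 : |(p' : ℝ) - (m * Q + (r + q * t₀) : ℕ)| = q * j := by
          rw [h1]
          push_cast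
          rw [show (p' : ℝ) - (p' + q * j) = -(q * j) by ring, abs_neg, abs_of_nonneg (by positivity)]
        rw [h3] at hcon
        exact hcon
      have hq0 : (0 : ℝ) < q := by exact_mod_cast hq
      have h3 : j ≤ G := by
        have := le_of_mul_le_mul_left h2 hq0
        exact_mod_cast this
      have h4 : q * t₀ = q * (t₀ - j) + q * j := by
        rw [← mul_add, Nat.sub_add_cancel (by omega)]
      refine ⟨t₀ - j, by omega, ?_, by omega⟩
      intro h5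
      have h6 : j = 0 := by
        rcases Nat.eq_zero_or_pos j with h7 | h7
        · exact h7
        · rcases Nat.eq_zero_or_pos t₀ with h8 | h8
          · omega
          · omega
      apply hne
      rw [h6, mul_zero] at h1
      omega
    · obtain ⟨j, hj⟩ := (Nat.modEq_iff_dvd' h).1 hpq.symm
      have h1 : p' = (m * Q + (r + q * t₀)) + q * j := by omega
      have h2 : (q : ℝ) * j ≤ q * G := by
        have h3 : |(p' : ℝ) - (m * Q + (r + q * t₀) : ℕ)| = q * j := by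
          rw [h1]
          push_cast
          rw [show (m : ℝ) * Q + (r + q * t₀) + q * j - (m * Q + (r + q * t₀)) = q * j by ring,
            abs_of_nonneg (by positivity)]
        rw [h3] at hcon
        exact hcon
      have hq0 : (0 : ℝ) < q := by exact_mod_cast hq
      have h3 : j ≤ G := by
        have := le_of_mul_le_mul_left h2 hq0
        exact_mod_cast this
      refine ⟨t₀ + j, by omega, ?_, by rw [h1]; ring⟩
      intro h5
      have h6 : j = 0 := by omega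
      apply hne
      rw [h1, h6, mul_zero, add_zero]
  by_cases hU : ∀ p : ℕ, p.Prime → p ≤ y → p ∉ F → ¬ k ≡ b p [MOD p]
  · exact hk k (mem_filter.2 ⟨mem_range.2 (by omega), hU⟩) hkt (hkd ▸ hp')
  · push Not at hU
    obtain ⟨p, hp, hpy, hpF, hkb⟩ := hU
    have h5 : p ∣ p' := by
      rw [hkd]
      have h6 : p ∣ m * Q := (hQ p hp hpy hpF).mul_left m
      have h7 : p ∣ r + q * k := by
        have h8 : r + q * k ≡ r + q * b p [MOD p] := (hkb.mul_left q).add_left r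
        exact Nat.modEq_zero_iff_dvd.1 (h8.trans (Nat.modEq_zero_iff_dvd.2 (hrb p hp hpy hpF)))
      exact dvd_add h6 h7
    have h6 := (Nat.prime_dvd_prime_iff_eq hp hp').1 h5
    omega

open Classical in
theorem dataC (A c₁ : ℝ) (hc₁ : 0 < c₁) : ∃ (η : ℝ) (z0 : ℕ), 0 < η ∧ ∀ z : ℕ, z0 ≤ z → ∀ y : ℕ, y = ⌊Real.log z / 64⌋₊ →
    (10000 ≤ Real.log z ∧ 100 ≤ Real.log y ∧ 100 ≤ y ∧ Real.log z / 128 ≤ y ∧ (y : ℝ) ≤ Real.log z / 64) ∧
    ∀ q : ℕ, 0 < q → q ^ 32 ≤ z → ∑ p ∈ q.primeFactors.filter (fun p => p ≤ y), (1 : ℝ) / p ≤ A →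
    ∑ p ∈ q.primeFactors.filter (fun p => p ≤ y ∧ V0 y < Real.log p), (1 : ℝ) / p ≤ A / Real.log y →
    ∀ p₀ : ℕ, p₀.Prime → ∀ a : ℕ, a.Coprime q →
    ∃ (r t₀ : ℕ) (U : Finset ℕ), r < q * MM y q p₀ ∧ r + t₀ ≡ a [MOD q] ∧ (r + t₀).Coprime (q * MM y q p₀) ∧
      y < t₀ ∧ t₀ ≤ q * y ^ 2 ∧ (∀ k ∈ U, k ≤ q * y ^ 2) ∧ (∀ k ∈ U, k ≠ t₀ → Sh (q * MM y q p₀) y k t₀) ∧
      (U.card : ℝ) ≤ c₁ * (y / Real.log y) ∧
      ∀ m, y + 1 < m * (q * MM y q p₀) → (∀ k ∈ U, k ≠ t₀ → ¬ (m * (q * MM y q p₀) + (r + k)).Prime) →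
        AloneC q (η * RR y) (m * (q * MM y q p₀) + (r + t₀)) := by
  obtain ⟨η, hη, y₀, hcov⟩ := cov (|A| + 1) (|A| + 1) c₁ (by positivity) hc₁
  have hev2 : ∀ᶠ z : ℕ in atTop, y₀ ≤ ⌊Real.log z / 64⌋₊ := by
    have h1 : Tendsto (fun z : ℕ => Real.log z / 64) atTop atTop :=
      (Real.tendsto_log_atTop.comp tendsto_natCast_atTop_atTop).atTop_div_const (by norm_num)
    exact (tendsto_nat_floor_atTop.comp h1).eventually_ge_atTop y₀
  have hev3 : ∀ᶠ z : ℕ in atTop, 10000 ≤ Real.log z :=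
    (Real.tendsto_log_atTop.comp (tendsto_natCast_atTop_atTop (R := ℝ))).eventually_ge_atTop 10000
  obtain ⟨z4, hz4⟩ := eventually_atTop.1 (hev2.and hev3)
  refine ⟨η, z4 + 3, hη, fun z hz y hyd => ?_⟩
  obtain ⟨hyy, s3⟩ := hz4 z (by omega)
  rw [← hyd] at hyy
  obtain ⟨f1, f2, f3, hcov'⟩ := hcov y hyy
  have hz0 : (0 : ℝ) < z := by exact_mod_cast (by omega : 0 < z)
  have hlz0 : 0 < Real.log z := by linarith
  have hly0 : 0 < Real.log y := by linarith
  have hy0 : (0 : ℝ) < y := by exact_mod_cast (by omega : 0 < y)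
  have hy1 : (y : ℝ) ≤ Real.log z / 64 := by rw [hyd]; exact Nat.floor_le (by positivity)
  have hy2 : Real.log z / 128 ≤ y := by
    have h1 : Real.log z / 64 < (y : ℝ) + 1 := by rw [hyd]; exact Nat.lt_floor_add_one _
    linarith
  refine ⟨⟨s3, f1, f3, hy2, hy1⟩, fun q hq hqz hqA hqB p₀ hp₀ a ha => ?_⟩
  -- the excluded primes
  obtain ⟨F, hF⟩ : ∃ F : Finset ℕ, F = (Icc 1 y).filter (fun p => p.Prime ∧ (p ∣ q ∨ p = p₀)) := ⟨_, rfl⟩
  have hFm : ∀ p, p ∈ F ↔ p.Prime ∧ p ≤ y ∧ (p ∣ q ∨ p = p₀) := by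
    intro p
    rw [hF, mem_filter, mem_Icc]
    constructor
    · rintro ⟨⟨_, h1⟩, h2, h3⟩
      exact ⟨h2, h1, h3⟩
    · rintro ⟨h2, h1, h3⟩
      exact ⟨⟨h2.one_lt.le, h1⟩, h2, h3⟩
  have hFn : ∀ p, p.Prime → p ≤ y → (p ∉ F ↔ ¬ p ∣ q ∧ p ≠ p₀) := by
    intro p hp hpy
    rw [hFm]
    constructor
    · intro h
      exact ⟨fun h1 => h ⟨hp, hpy, Or.inl h1⟩, fun h1 => h ⟨hp, hpy, Or.inr h1⟩⟩
    · rintro ⟨h1, h2⟩ ⟨_, _, h3 | h3⟩
      · exact h1 h3
      · exact h2 h3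
  have hp₀1 : (1 : ℝ) / p₀ ≤ 1 := by
    rw [div_le_one (by exact_mod_cast hp₀.pos)]
    exact_mod_cast hp₀.one_lt.le
  have hFs : ∑ p ∈ F, (1 : ℝ) / p ≤ |A| + 1 := by
    have h1 : F ⊆ q.primeFactors.filter (fun p => p ≤ y) ∪ {p₀} := by
      intro p hp
      rw [hFm] at hp
      rw [mem_union, mem_filter, Nat.mem_primeFactors, mem_singleton]
      rcases hp.2.2 with h | h
      · exact Or.inl ⟨⟨hp.1, h, hq.ne'⟩, hp.2.1⟩
      · exact Or.inr h
    have h2 := sum_le_sum_of_subset_of_nonneg (f := fun p : ℕ => (1 : ℝ) / p) h1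
      (fun _ _ _ => by positivity)
    have h3 : ∑ p ∈ q.primeFactors.filter (fun p => p ≤ y) ∪ {p₀}, (1 : ℝ) / p ≤
        ∑ p ∈ q.primeFactors.filter (fun p => p ≤ y), (1 : ℝ) / p + ∑ p ∈ ({p₀} : Finset ℕ), (1 : ℝ) / p := by
      rw [← sum_union_inter]
      have : 0 ≤ ∑ p ∈ q.primeFactors.filter (fun p => p ≤ y) ∩ {p₀}, (1 : ℝ) / p :=
        sum_nonneg fun _ _ => by positivity
      linarith
    rw [sum_singleton] at h3
    have := le_abs_self A
    linarith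
  have hFt : ∑ p ∈ F.filter (fun p : ℕ => V0 y < Real.log p), (1 : ℝ) / p ≤ (|A| + 1) / Real.log y := by
    have h1 : F.filter (fun p : ℕ => V0 y < Real.log p) ⊆
        q.primeFactors.filter (fun p => p ≤ y ∧ V0 y < Real.log p) ∪
          ({p₀} : Finset ℕ).filter (fun p : ℕ => V0 y < Real.log p) := by
      intro p hp
      rw [mem_filter, hFm] at hp
      rw [mem_union, mem_filter, mem_filter, Nat.mem_primeFactors, mem_singleton]
      rcases hp.1.2.2 with h | h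
      · exact Or.inl ⟨⟨hp.1.1, h, hq.ne'⟩, hp.1.2.1, hp.2⟩
      · exact Or.inr ⟨h, hp.2⟩
    have h2 := sum_le_sum_of_subset_of_nonneg (f := fun p : ℕ => (1 : ℝ) / p) h1
      (fun _ _ _ => by positivity)
    have h3 : ∑ p ∈ q.primeFactors.filter (fun p => p ≤ y ∧ V0 y < Real.log p) ∪
          ({p₀} : Finset ℕ).filter (fun p : ℕ => V0 y < Real.log p), (1 : ℝ) / p ≤
        ∑ p ∈ q.primeFactors.filter (fun p => p ≤ y ∧ V0 y < Real.log p), (1 : ℝ) / p +
          ∑ p ∈ ({p₀} : Finset ℕ).filter (fun p : ℕ => V0 y < Real.log p), (1 : ℝ) / p := by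
      rw [← sum_union_inter]
      have : 0 ≤ ∑ p ∈ q.primeFactors.filter (fun p => p ≤ y ∧ V0 y < Real.log p) ∩
          ({p₀} : Finset ℕ).filter (fun p : ℕ => V0 y < Real.log p), (1 : ℝ) / p :=
        sum_nonneg fun _ _ => by positivity
      linarith
    have h4 : ∑ p ∈ ({p₀} : Finset ℕ).filter (fun p : ℕ => V0 y < Real.log p), (1 : ℝ) / p ≤
        1 / Real.log y := by
      by_cases hp : V0 y < Real.log p₀
      · rw [filter_singleton, if_pos hp, sum_singleton]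
        apply one_div_le_one_div_of_le hly0
        have hp00 : (0 : ℝ) < p₀ := by exact_mod_cast hp₀.pos
        have h5 := Real.exp_le_exp.2 hp.le
        rw [Real.exp_log hp00] at h5
        have h6 : Real.log y ≤ Real.log y ^ 4 := le_self_pow₀ (by linarith) (by norm_num)
        linarith
      · rw [filter_singleton, if_neg hp, sum_empty]
        positivity
    have h5 : A / Real.log y ≤ |A| / Real.log y := div_le_div_of_nonneg_right (le_abs_self A) hly0.le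
    rw [add_div]
    linarith
  obtain ⟨H, G, t₀, b, hHy, hyt, ht₀, hGt, htH, hηG, hb, hU⟩ :=
    hcov' F (fun p hp => ((hFm p).1 hp).1) hFs hFt
  obtain ⟨U, hUd⟩ : ∃ U, U = (range (H + 1)).filter (fun k => ∀ p : ℕ, p.Prime → p ≤ y → p ∉ F →
        ¬ k ≡ b p [MOD p]) := ⟨_, rfl⟩
  rw [← hUd] at hU
  obtain ⟨r, hrQ, hra, hrb'⟩ := crt y q p₀ (q * t₀) a hq (fun p => q * b p % p) (fun p hp hpy h1 h2 =>
    Nat.mod_lt _ hp.pos)
  have hrb : ∀ p : ℕ, p.Prime → p ≤ y → ¬ p ∣ q → p ≠ p₀ → p ∣ r + q * b p := by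
    intro p hp hpy h1 h2
    have h3 := hrb' p hp hpy h1 h2
    have h4 : r + q * b p % p ≡ r + q * b p [MOD p] := (Nat.mod_modEq _ _).add_left r
    exact (h4.dvd_iff dvd_rfl).1 h3
  obtain ⟨Q, hQd⟩ : ∃ Q, Q = q * MM y q p₀ := ⟨_, rfl⟩
  rw [← hQd] at hrQ ⊢
  obtain ⟨hQ0, hQ16, hQy, _⟩ := Qfacts (p₀ := p₀) hyd s3 f1 hq hqz
  rw [← hQd] at hQ0 hQ16 hQy
  have hqQ : q ∣ Q := by rw [hQd]; exact Dvd.intro _ rfl
  have hQF : ∀ p : ℕ, p.Prime → p ≤ y → p ∉ F → p ∣ Q := fun p hp hpy hpF =>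
    hQy p hp hpy ((hFn p hp hpy).1 hpF).2
  have hrF : ∀ p : ℕ, p.Prime → p ≤ y → p ∉ F → p ∣ r + q * b p := fun p hp hpy hpF =>
    hrb p hp hpy ((hFn p hp hpy).1 hpF).1 ((hFn p hp hpy).1 hpF).2
  -- coprimality
  have hco : (r + q * t₀).Coprime Q := by
    apply Nat.Coprime.symm
    apply Nat.coprime_of_dvd
    intro p hp hpQ hph
    rw [hQd, hp.dvd_mul] at hpQ
    rcases hpQ with h | h
    · have h1 : a ≡ 0 [MOD p] := ((hra.of_dvd h).symm).trans (Nat.modEq_zero_iff_dvd.2 hph)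
      have h2 := Nat.dvd_gcd (Nat.modEq_zero_iff_dvd.1 h1) h
      rw [ha] at h2
      exact hp.one_lt.ne' (Nat.dvd_one.1 h2)
    · obtain ⟨h1, h2, h3⟩ := (MM_dvd hp).1 h
      have h4 := hrb p hp h1 h2 h3
      refine (hb p hp h1 ((hFn p hp h1).2 ⟨h2, h3⟩)).2 ?_
      have h5 : r + q * t₀ ≡ r + q * b p [MOD p] :=
        (Nat.modEq_zero_iff_dvd.2 hph).trans (Nat.modEq_zero_iff_dvd.2 h4).symm
      have h6 := Nat.ModEq.add_left_cancel' r h5
      exact Nat.ModEq.cancel_left_of_coprime ((Nat.Prime.coprime_iff_not_dvd hp).2 h2) h6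
  have hkH : ∀ k ∈ U, k ≤ y ^ 2 := by
    intro k hk
    rw [hUd, mem_filter, mem_range] at hk
    omega
  refine ⟨r, q * t₀, U.image (fun k => q * k), hrQ, hra, hco, ?_, ?_, ?_, ?_, ?_, ?_⟩
  · exact lt_of_lt_of_le hyt (Nat.le_mul_of_pos_left _ hq)
  · exact Nat.mul_le_mul_left _ (by omega)
  · intro k' hk'
    obtain ⟨k, hk, rfl⟩ := mem_image.1 hk'
    exact Nat.mul_le_mul_left _ (hkH k hk)
  · intro k' hk' hne
    obtain ⟨k, hk, rfl⟩ := mem_image.1 hk'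
    exact Sh.mul hqQ (fun h => hne (by rw [h])) (hkH k hk) (by omega)
  · exact le_trans (by exact_mod_cast card_image_le) hU
  · intro m hm hk p' hp' hpq hne'
    have h1 := one_rowC (z := y + 1) (y := y) (b := b) (F := F) hq hGt htH (by omega) hrF hQF hqQ hm (by
      rw [← hUd]
      intro k hkU hkt
      exact hk (q * k) (mem_image_of_mem _ hkU) (fun h => hkt (Nat.eq_of_mul_eq_mul_left hq h))) p' hp' hpq hne'
    refine lt_of_le_of_lt ?_ h1
    exact mul_le_mul_of_nonneg_left hηG (Nat.cast_nonneg q)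

end Pool.Agent.H92.J
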