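import Pool.Agent.H92.J.Main
import Pool.Agent.H92.I.Cmp
import Pool.Agent.H92.I.Fin

/-!
Linnik's theorem for primes isolated by Rankin gaps, for all thin moduli: the final form (the passage from `mainI` to the
final form is that of `Pool.Agent.R529.LG.final`, library).
-/

set_option autoImplicit false

namespace Pool.Agent.H92.J

open Finset Filter
open Pool.Agent.H92.I (RX TX compare floor_facts)
open Pool.Agent.TH101.RG (V0)
open Pool.Agent.R529.LG (RR)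

/-- **Linnik's theorem for primes isolated by Rankin gaps.** -/
theorem final (A : ℝ) : ∃ κ c : ℝ, 0 < κ ∧ 0 < c ∧ ∃ X₀ : ℝ, ∀ X : ℝ, X₀ ≤ X →
    ∀ q : ℕ, 1 ≤ q → (q : ℝ) ≤ X ^ κ →
    ∑ p ∈ q.primeFactors.filter (fun p : ℕ => (p : ℝ) ≤ Real.log X), (1 : ℝ) / p ≤ A →
    ∑ p ∈ q.primeFactors.filter (fun p : ℕ => (p : ℝ) ≤ Real.log X ∧ TX X < Real.log p), (1 : ℝ) / p ≤
      A / Real.log (Real.log X) →
    ∀ a : ℕ, a.Coprime q →
    X ^ κ ≤ ({p : ℕ | p.Prime ∧ (p : ℝ) ≤ X ∧ p ≡ a [MOD q] ∧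
      ∀ p' : ℕ, p'.Prime → p' ≡ p [MOD q] → p' ≠ p → c * q * RX X < |(p' : ℝ) - p|}.ncard : ℝ) := by
  classical
  obtain ⟨K, η, z0, hK, hη, hmain⟩ := mainC |A|
  obtain ⟨k, hk⟩ : ∃ k : ℕ, k = K + 1 := ⟨_, rfl⟩
  have hk1 : 1 ≤ k := by omega
  have hk0 : (0 : ℝ) < k := by exact_mod_cast hk1
  have hk1' : (1 : ℝ) ≤ k := by exact_mod_cast hk1
  obtain ⟨C, hC⟩ : ∃ C : ℝ, C = 256 * k := ⟨_, rfl⟩
  have hC1 : 1 ≤ C := by rw [hC]; linarith
  refine ⟨1 / (64 * (k : ℝ)), η / (4 * C), by positivity, by positivity, ?_⟩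
  have hev1 : ∀ᶠ X : ℝ in atTop, z0 ≤ ⌊X ^ (1 / (k : ℝ))⌋₊ :=
    (tendsto_nat_floor_atTop.comp (tendsto_rpow_atTop (by positivity))).eventually_ge_atTop z0
  obtain ⟨X₀, hX₀⟩ := eventually_atTop.1 ((hev1.and (compare C hC1)).and
    ((floor_facts k 0 hk1).and ((eventually_ge_atTop (2 : ℝ)).and
      (Real.tendsto_log_atTop.eventually_ge_atTop 1))))
  refine ⟨X₀, fun X hX => ?_⟩
  obtain ⟨⟨hz0, hcmp⟩, hff, hX2, hlX1⟩ := hX₀ X hX
  obtain ⟨z, hz⟩ : ∃ z, z = ⌊X ^ (1 / (k : ℝ))⌋₊ := ⟨_, rfl⟩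
  rw [← hz] at hz0
  obtain ⟨c1, c2, c3, c4, c5, c6⟩ := hff z hz
  have hX0 : 0 < X := by linarith
  have hX1 : 1 ≤ X := by linarith
  obtain ⟨y, hy⟩ : ∃ y, y = ⌊Real.log z / 64⌋₊ := ⟨_, rfl⟩
  have hlz0 : 0 < Real.log z := by linarith
  have hy1 : (y : ℝ) ≤ Real.log z / 64 := by rw [hy]; exact Nat.floor_le (by positivity)
  have hy2 : Real.log z / 64 < y + 1 := by rw [hy]; exact Nat.lt_floor_add_one _
  have hyX : (y : ℝ) ≤ Real.log X := by linarith
  have hyC : Real.log X / C ≤ y := by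
    have h1 : Real.log X / C = (Real.log X / (2 * k)) / 128 := by rw [hC]; field_simp; norm_num
    rw [h1]
    linarith
  obtain ⟨d1, d2, d3, d4⟩ := hcmp y hyC hyX
  intro q hq1 hqX hqA hqB a ha
  have hq0 : (0 : ℝ) < q := by exact_mod_cast hq1
  have h32 : q ^ 32 ≤ z := by
    have h1 : (q : ℝ) ^ 32 ≤ z := by
      calc (q : ℝ) ^ 32 ≤ (X ^ (1 / (64 * (k : ℝ)))) ^ 32 := pow_le_pow_left₀ hq0.le hqX 32
        _ = X ^ (1 / (2 * (k : ℝ))) := by
          rw [← Real.rpow_natCast, ← Real.rpow_mul hX0.le]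
          congr 1
          push_cast
          field_simp
          norm_num
        _ ≤ z := c3
    exact_mod_cast h1
  have hS1 : ∑ p ∈ q.primeFactors.filter (fun p => p ≤ y), (1 : ℝ) / p ≤ |A| := by
    refine le_trans (sum_le_sum_of_subset_of_nonneg (fun p hp => ?_) fun _ _ _ => by positivity)
      (hqA.trans (le_abs_self A))
    rw [mem_filter] at hp ⊢
    exact ⟨hp.1, le_trans (by exact_mod_cast hp.2) hyX⟩
  have hS2 : ∑ p ∈ q.primeFactors.filter (fun p => p ≤ y ∧ V0 y < Real.log p), (1 : ℝ) / p ≤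
      |A| / Real.log y := by
    have h1 : A / Real.log (Real.log X) ≤ |A| / Real.log y := by
      calc A / Real.log (Real.log X) ≤ |A| / Real.log (Real.log X) :=
            div_le_div_of_nonneg_right (le_abs_self A) (by linarith)
        _ ≤ _ := div_le_div_of_nonneg_left (abs_nonneg A) d2 d1
    refine le_trans (sum_le_sum_of_subset_of_nonneg (fun p hp => ?_) fun _ _ _ => by positivity)
      (hqB.trans h1)
    rw [mem_filter] at hp ⊢
    exact ⟨hp.1, le_trans (by exact_mod_cast hp.2.1) hyX, lt_of_le_of_lt d3 hp.2.2⟩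
  have h1 := hmain z hz0 y hy q hq1 h32 hS1 hS2 a ha
  unfold IsoC at h1
  obtain ⟨W, hW⟩ : ∃ W : Finset ℕ, W = (Ioc z (z ^ (K + 1))).filter (fun p => p.Prime ∧ p ≡ a [MOD q] ∧
      AloneC q (η * RR y) p) := ⟨_, rfl⟩
  rw [← hW] at h1
  have h2 : X ^ (1 / (64 * (k : ℝ))) ≤ W.card := by
    have h3 : (X ^ (1 / (64 * (k : ℝ)))) ^ 2 ≤ (W.card : ℝ) ^ 2 := by
      refine le_trans ?_ (c3.trans h1)
      rw [← Real.rpow_natCast, ← Real.rpow_mul hX0.le]
      apply Real.rpow_le_rpow_of_exponent_le hX1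
      push_cast
      rw [div_mul_eq_mul_div, div_le_div_iff₀ (by positivity) (by positivity)]
      nlinarith
    exact le_of_sq_le_sq h3 (Nat.cast_nonneg _)
  refine h2.trans ?_
  rw [← Set.ncard_coe_finset]
  apply Nat.cast_le.2
  apply Set.ncard_le_ncard
  · intro p hp
    rw [mem_coe, hW, mem_filter, mem_Ioc] at hp
    refine ⟨hp.2.1, ?_, hp.2.2.1, fun p' hp' hcl hne => ?_⟩
    · refine le_trans ?_ c2
      rw [hk]
      exact_mod_cast hp.1.2
    · refine lt_of_le_of_lt ?_ (hp.2.2.2 p' hp' hcl hne)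
      calc η / (4 * C) * q * RX X = q * (η * (RX X / (4 * C))) := by field_simp
        _ ≤ q * (η * RR y) := mul_le_mul_of_nonneg_left (mul_le_mul_of_nonneg_left d4 hη.le) hq0.le
  · apply (Set.finite_Iic ⌊X⌋₊).subset
    intro p hp
    exact Set.mem_Iic.2 (Nat.le_floor hp.2.1)

end Pool.Agent.H92.J
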