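import Pool.Agent.H92.J.Plus
import Pool.Agent.H92.J.Dat
import Pool.Agent.H92.I.Main

set_option autoImplicit false

/-! Primes isolated in their class, for all thin moduli. -/

open Finset Filter Topology

namespace Pool.Agent.H92.J

open Pool.Agent.H262R3.Lk
open Pool.Agent.H92.G Pool.Agent.H92.I
open Pool.Agent.TH101.RG (V0)
open Pool.Agent.R529.LG (RR MM MM_pos MM_dvd leave_out ratio)

theorem ev_8 : ∀ᶠ z : ℕ in atTop, (Real.log z) ^ 8 ≤ z := by
  have h2 := (Real.isLittleO_pow_log_id_atTop (n := 8)).bound (show (0 : ℝ) < 1 by norm_num)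
  have ht := tendsto_natCast_atTop_atTop (R := ℝ)
  filter_upwards [ht.eventually h2, eventually_ge_atTop 3] with z e2 e3
  have hz : (3 : ℝ) ≤ z := by exact_mod_cast e3
  rw [id, one_mul, Real.norm_of_nonneg (by have := Real.log_nonneg (by linarith : (1:ℝ) ≤ z); positivity),
    Real.norm_of_nonneg (by linarith)] at e2
  exact e2

open Classical in
/-- the isolated primes -/
noncomputable def IsoC (z K q a : ℕ) (G : ℝ) : Finset ℕ :=
  (Ioc z (z ^ K)).filter (fun p => p.Prime ∧ p ≡ a [MOD q] ∧ AloneC q G p)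

open Classical in
theorem rows_finC {z N Q r t₀ y q a K K' : ℕ} {G : ℝ} {S : Finset ℕ} (hz : 4 ≤ z) (hNK : N ≤ z ^ K) (hK : 1 ≤ K) (hKK : K + 2 ≤ K')
    (hQ : 1 ≤ Q) (hQz : Q ≤ z) (hr : r < Q) (ht : t₀ ≤ z) (hy : y + 1 ≤ z) (hq : q ∣ Q) (hra : r + t₀ ≡ a [MOD q])
    (hS : ∀ m ∈ S, z < m ∧ m ≤ N ∧ (m * Q + (r + t₀)).Prime ∧ (y + 1 < m * Q → AloneC q G (m * Q + (r + t₀)))) :
    S.card ≤ (IsoC z K' q a G).card := by
  have himg : S.image (fun m => m * Q + (r + t₀)) ⊆ IsoC z K' q a G := by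
    intro p hp
    obtain ⟨m, hm, rfl⟩ := mem_image.1 hp
    obtain ⟨h1, h2, h3, h4⟩ := hS m hm
    unfold IsoC
    rw [mem_filter, mem_Ioc]
    have hmQ : m ≤ m * Q := Nat.le_mul_of_pos_right m hQ
    refine ⟨⟨by omega, ?_⟩, h3, ?_, h4 (by omega)⟩
    · have h5 : m * Q ≤ z ^ K * z := Nat.mul_le_mul (h2.trans hNK) hQz
      have h6 : z ^ K * z = z ^ (K + 1) := by ring
      have h7 : z ^ (K + 2) = z * z ^ (K + 1) := by ring
      have h8 : z ≤ z ^ (K + 1) := Nat.le_self_pow (by omega) z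
      have h9 : 4 * z ^ (K + 1) ≤ z * z ^ (K + 1) := Nat.mul_le_mul_right _ hz
      have h10 : z ^ (K + 2) ≤ z ^ K' := Nat.pow_le_pow_right (by omega) hKK
      omega
    · have h5 : m * Q + (r + t₀) ≡ 0 + (r + t₀) [MOD q] :=
        Nat.ModEq.add_right _ (Nat.modEq_zero_iff_dvd.2 (hq.mul_left m))
      rw [zero_add] at h5
      exact h5.trans hra
  have hinj : Function.Injective (fun m => m * Q + (r + t₀)) := by
    intro m m' h
    simp only at h
    exact Nat.eq_of_mul_eq_mul_right hQ (by omega)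
  have h1 := card_le_card himg
  rwa [card_image_of_injective _ hinj] at h1

/-- the end of the first two cases -/
theorem endSC {z N Q r t₀ y q a K K' : ℕ} {G c : ℝ} (U : Finset ℕ) (hz : 4 ≤ z) (hzN : z * z ≤ N) (hNK : N ≤ z ^ K) (hK : 1 ≤ K)
    (hKK : K + 2 ≤ K') (hQ : 1 ≤ Q) (hQz : Q ≤ z) (hr : r < Q) (ht : t₀ ≤ z) (hy : y + 1 ≤ z) (hy3 : 3 ≤ y) (hq : q ∣ Q)
    (hra : r + t₀ ≡ a [MOD q]) (hc : 0 < c)
    (hrt : Real.sqrt N ≤ c * (N / Real.log N))
    (hal : ∀ m, y + 1 < m * Q → (∀ k ∈ U, k ≠ t₀ → ¬ (m * Q + (r + k)).Prime) → AloneC q G (m * Q + (r + t₀)))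
    (hcnt : c * (N * (Real.log y / Real.log N)) ≤ (((Icc 1 N).filter (fun m => N < m * m ∧ (m * Q + (r + t₀)).Prime ∧
      ∀ k ∈ U, k ≠ t₀ → ¬ (m * Q + (r + k)).Prime)).card : ℝ)) :
    (z : ℝ) ≤ ((IsoC z K' q a G).card : ℝ) ^ 2 := by
  classical
  have h1 := rows_finC (S := (Icc 1 N).filter (fun m => N < m * m ∧ (m * Q + (r + t₀)).Prime ∧
      ∀ k ∈ U, k ≠ t₀ → ¬ (m * Q + (r + k)).Prime)) (G := G) hz hNK hK hKK hQ hQz hr ht hy hq hra (by
    intro m hm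
    rw [mem_filter, mem_Icc] at hm
    refine ⟨?_, hm.1.2, hm.2.2.1, fun h => hal m h hm.2.2.2⟩
    by_contra hcon
    have h2 : m * m ≤ z * z := Nat.mul_le_mul (not_lt.1 hcon) (not_lt.1 hcon)
    omega)
  have h2 : Real.sqrt N ≤ ((IsoC z K' q a G).card : ℝ) := by
    refine le_trans ?_ (Nat.cast_le (α := ℝ).2 h1)
    refine hrt.trans (le_trans ?_ hcnt)
    apply mul_le_mul_of_nonneg_left _ hc.le
    have hyr : (3 : ℝ) ≤ y := by exact_mod_cast hy3
    have hly : 1 ≤ Real.log y := by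
      rw [Real.le_log_iff_exp_le (by linarith)]
      have := Real.exp_one_lt_d9
      linarith
    have hN1 : (1 : ℝ) ≤ N := by
      have : 1 ≤ N := by nlinarith
      exact_mod_cast this
    rw [mul_div_assoc']
    apply div_le_div_of_nonneg_right _ (Real.log_nonneg hN1)
    calc (N : ℝ) = N * 1 := (mul_one _).symm
      _ ≤ _ := mul_le_mul_of_nonneg_left hly (by linarith)
  have h3 : (z : ℝ) ≤ Real.sqrt N ^ 2 := by
    rw [Real.sq_sqrt (Nat.cast_nonneg N)]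
    have : z ≤ N := by nlinarith
    exact_mod_cast this
  exact h3.trans (pow_le_pow_left₀ (Real.sqrt_nonneg _) h2 2)

set_option maxHeartbeats 4000000 in
theorem mainC (A : ℝ) : ∃ (K : ℕ) (η : ℝ) (z0 : ℕ), 1 ≤ K ∧ 0 < η ∧ ∀ z : ℕ, z0 ≤ z →
    ∀ y : ℕ, y = ⌊Real.log z / 64⌋₊ → ∀ q : ℕ, 0 < q → q ^ 32 ≤ z →
    ∑ p ∈ q.primeFactors.filter (fun p => p ≤ y), (1 : ℝ) / p ≤ A →
    ∑ p ∈ q.primeFactors.filter (fun p => p ≤ y ∧ V0 y < Real.log p), (1 : ℝ) / p ≤ A / Real.log y →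
    ∀ a : ℕ, a.Coprime q → (z : ℝ) ≤ ((IsoC z (K + 1) q a (η * RR y)).card : ℝ) ^ 2 := by
  classical
  obtain ⟨u1, s1, cp, hu1, hcp, hplus⟩ := plus_isoS
  obtain ⟨u2, s2, ϑ2, cm, hu2, hϑ2, hcm, hminus⟩ := minus_iso
  obtain ⟨cm1, Nm, hcm1, hrowm⟩ := good_rowsS cm hcm
  obtain ⟨G, δm, hG, hδm, hδm1, hlow⟩ := lowX
  obtain ⟨cL, hcL, hLlow⟩ := L_low
  obtain ⟨V, hV⟩ : ∃ V : ℕ, V = 16 * (u1 + 1) + 50 * u2 := ⟨_, rfl⟩
  have hV16 : 16 ≤ V := by omega
  obtain ⟨ϑ, hϑ⟩ : ∃ ϑ : ℝ, ϑ = min (1 / 8) ϑ2 := ⟨_, rfl⟩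
  have hϑ0 : 0 < ϑ := by rw [hϑ]; exact lt_min (by norm_num) hϑ2
  have hϑa : ϑ ≤ 1 / 8 := by rw [hϑ]; exact min_le_left _ _
  have hϑb : ϑ ≤ ϑ2 := by rw [hϑ]; exact min_le_right _ _
  obtain ⟨J, hJ⟩ := exists_nat_gt (G / ϑ)
  rw [div_lt_iff₀ hϑ0] at hJ
  have hVr : (0 : ℝ) < (V : ℝ) ^ J := by
    have : (0 : ℝ) < V := by
      have : 0 < V := by omega
      exact_mod_cast this
    positivity
  obtain ⟨δ, hδ⟩ : ∃ δ : ℝ, δ = min δm (1 / (V : ℝ) ^ J) := ⟨_, rfl⟩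
  have hδ0 : 0 < δ := by rw [hδ]; exact lt_min hδm (by positivity)
  have hδa : δ ≤ δm := by rw [hδ]; exact min_le_left _ _
  have hδb : δ * (V : ℝ) ^ J ≤ 1 := by
    have h1 : δ ≤ 1 / (V : ℝ) ^ J := by rw [hδ]; exact min_le_right _ _
    rw [le_div_iff₀ hVr] at h1
    exact h1
  obtain ⟨c1, hc1, hdich⟩ := hlow δ hδ0 hδa
  obtain ⟨A3, cn, M3, hcn, hne⟩ := ne_iso c1 δ hc1 hδ0
  obtain ⟨c4, hc4, hratio⟩ := ratio
  obtain ⟨cn1, Nn, hcn1, hrown⟩ := good_rowsS (cn * c4) (by positivity)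
  obtain ⟨c₁, hc₁⟩ : ∃ c₁ : ℝ, c₁ = min cp (min cm1 cn1) := ⟨_, rfl⟩
  have hc₁0 : 0 < c₁ := by rw [hc₁]; exact lt_min hcp (lt_min hcm1 hcn1)
  have hc₁a : c₁ ≤ cp := by rw [hc₁]; exact min_le_left _ _
  have hc₁b : c₁ ≤ cm1 := by rw [hc₁]; exact (min_le_right _ _).trans (min_le_left _ _)
  have hc₁c : c₁ ≤ cn1 := by rw [hc₁]; exact (min_le_right _ _).trans (min_le_right _ _)
  obtain ⟨η, zd, hη, hdata⟩ := dataC A c₁ hc₁0
  obtain ⟨Nr1, hNr13, hroot1⟩ := root_le (cm / 2) (by positivity)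
  obtain ⟨Nr2, hNr23, hroot2⟩ := root_le (cn * c4 / 2) (by positivity)
  obtain ⟨ze, hze⟩ := eventually_atTop.1 ((ev_z (s1 + s2 + 100)).and ev_8)
  obtain ⟨K0, hK0⟩ : ∃ K0 : ℕ, K0 = A3 + 2 * V ^ J * V + 1 := ⟨_, rfl⟩
  refine ⟨K0 + 1, η, ze + zd + M3 + s1 + s2 + Nm + Nn + Nr1 + Nr2 + 100 + ⌈1 / cL⌉₊, by omega, hη, ?_⟩
  intro z hz y hyd q hq hqz hqA hqB a ha
  obtain ⟨⟨f1, f2, f3, f4, f5⟩, hdat⟩ := hdata z (by omega) y hyd
  obtain ⟨⟨ev1, ev2, ev3⟩, ev4⟩ := hze z (by omega)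
  have hz17 : 17 ≤ z := by omega
  have hzr : (17 : ℝ) ≤ z := by exact_mod_cast hz17
  have hz0 : (0 : ℝ) < z := by linarith
  have hysize : s1 + s2 + 100 ≤ y := by
    have : ((s1 + s2 + 100 : ℕ) : ℝ) ≤ y := ev1.trans f4
    exact_mod_cast this
  have hy2 : y ^ 2 ≤ z := by
    have h1 : (y : ℝ) ≤ Real.log z := by linarith
    have h2 : (y : ℝ) ^ 2 ≤ (Real.log z) ^ 2 := pow_le_pow_left₀ (Nat.cast_nonneg y) h1 2
    have h3 : (y : ℝ) ^ 2 ≤ z := by linarith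
    exact_mod_cast h3
  have hyz : y + 1 ≤ z := by
    have : y * 2 ≤ y ^ 2 := by rw [sq]; exact Nat.mul_le_mul_left _ (by omega)
    omega
  have hylz : (y : ℝ) ≤ Real.log z := by linarith
  have hly0 : 0 < Real.log y := by linarith
  have hqy : q * y ^ 2 ≤ z := by
    have h1 : y ^ 8 ≤ z := by
      have h2 : (y : ℝ) ^ 8 ≤ (Real.log z) ^ 8 := pow_le_pow_left₀ (Nat.cast_nonneg y) hylz 8
      have h3 : (y : ℝ) ^ 8 ≤ z := by linarith
      exact_mod_cast h3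
    have h2 : q ^ 4 ≤ z := (Nat.pow_le_pow_right hq (by norm_num)).trans hqz
    have h3 : (q * y ^ 2) ^ 4 ≤ z ^ 4 := by
      calc (q * y ^ 2) ^ 4 = q ^ 4 * y ^ 8 := by ring
        _ ≤ z * z := Nat.mul_le_mul h2 h1
        _ = z ^ 2 := by ring
        _ ≤ z ^ 4 := Nat.pow_le_pow_right (by omega) (by norm_num)
    exact (Nat.pow_le_pow_iff_left (by norm_num : (4 : ℕ) ≠ 0)).1 h3
  have hKK : K0 + 2 ≤ K0 + 1 + 1 := le_rfl
  obtain ⟨zL, hzL⟩ : ∃ zL : ℕ, zL = z ^ 32 := ⟨_, rfl⟩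
  have hzL32 : 32 ≤ zL := by
    rw [hzL]
    calc 32 ≤ 17 ^ 32 := by norm_num
      _ ≤ z ^ 32 := Nat.pow_le_pow_left hz17 32
  obtain ⟨huniq, hgood, hexc⟩ := hdich zL hzL32
  have hK1 : 1 ≤ K0 := by omega
  by_cases hex : ∃ f, LOW.Exc zL δ f ∧ f ∣ q
  · -- the exceptional modulus divides `q`
    obtain ⟨f, hf, hfq⟩ := hex
    have hf1 : 1 < f := hf.1
    have : NeZero f := ⟨by omega⟩
    obtain ⟨ψ, hψp, hψ2, hψs⟩ := hexc f hf
    have hψ1 : ψ ≠ 1 := LOW.primitive_ne_one hf1 hψp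
    obtain ⟨χ, hχ, hψχ, hTe⟩ := chr_of ψ hψ1 hψ2
    obtain ⟨s, hs2, hsV, hfilt⟩ := find_s (M := z) (V := V) (J := J) (G := G) (ϑ := ϑ) (δ := δ) hz17 hV16 hδ0 hδb hJ χ hzL
      (fun S hS => hψs S fun p hp => ⟨(hS p hp).1, (hS p hp).2.1, (hS p hp).2.2.1, by
        rw [hψχ, (hS p hp).2.2.2, Complex.ofReal_one]⟩)
    have hzs : z ≤ s := (Nat.le_self_pow (by norm_num) z).trans hs2
    obtain ⟨p₀, hp₀y, hp₀⟩ := Nat.exists_infinite_primes (y + 1)
    obtain ⟨r, t₀, U, hr, hra, hco, hyt, hty, hUy, hSh, hU, hal⟩ := hdat q hq hqz hqA hqB p₀ hp₀ a ha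
    have htz : t₀ ≤ z := hty.trans hqy
    have hUz : ∀ k ∈ U, k ≤ z := fun k hk => (hUy k hk).trans hqy
    obtain ⟨hQ0, hQ16, hQy, hQsum⟩ := Qfacts (p₀ := p₀) hyd f1 f2 hq hqz
    obtain ⟨Q, hQd⟩ : ∃ Q, Q = q * MM y q p₀ := ⟨_, rfl⟩
    rw [← hQd] at hr hco hal hSh hQ0 hQ16 hQy hQsum
    have hqQ : q ∣ Q := by rw [hQd]; exact Dvd.intro _ rfl
    have hQz : Q ≤ z := (Nat.le_self_pow (by norm_num) Q).trans hQ16
    have hQs : Q ≤ s := hQz.trans hzs
    have hfQ : f ∣ Q := hfq.trans hqQ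
    have hfle : f ≤ z := (Nat.le_of_dvd hQ0 hfQ).trans hQz
    have hall : ∀ p : ℕ, p.Prime → p ≤ y → p ∣ Q := fun p hp hpy => hQy p hp hpy (by omega)
    have hbf : (r + t₀).Coprime f := Nat.Coprime.coprime_dvd_right hfQ hco
    have hU4 : (U.card : ℝ) ≤ cp * (y / Real.log y) :=
      hU.trans (mul_le_mul_of_nonneg_right hc₁a (by positivity))
    have hU5 : (U.card : ℝ) ≤ cm1 * (y / Real.log y) :=
      hU.trans (mul_le_mul_of_nonneg_right hc₁b (by positivity))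
    have hlogs : Real.log z ≤ Real.log s := Real.log_le_log hz0 (by exact_mod_cast hzs)
    rcases hχ.val (r + t₀) hbf with hχb | hχb
    · -- `χ = 1`
      obtain ⟨d, hd⟩ : ∃ d, d = (r + t₀) / Q := ⟨_, rfl⟩
      obtain ⟨b, hb⟩ : ∃ b, b = (r + t₀) % Q := ⟨_, rfl⟩
      have hrd : r + t₀ = Q * d + b := by rw [hd, hb]; exact (Nat.div_add_mod _ _).symm
      have hbQ : b < Q := by rw [hb]; exact Nat.mod_lt _ hQ0
      have hbco : b.Coprime Q := by
        rw [hrd, Nat.coprime_iff_gcd_eq_one, Nat.gcd_comm, add_comm, Nat.gcd_add_mul_left_right, Nat.gcd_comm] at hco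
        exact hco
      have hQ1 : 1 < Q := lt_of_lt_of_le hf1 (Nat.le_of_dvd hQ0 hfQ)
      have hb1 : 1 ≤ b := by
        rcases Nat.eq_zero_or_pos b with h | h
        · rw [h, Nat.coprime_zero_left] at hbco
          omega
        · exact h
      have hχb1 : χ b = 1 := by
        rw [← hχb]
        apply hχ.per
        rw [hrd]
        have h1 : Q * d ≡ 0 [MOD f] := Nat.modEq_zero_iff_dvd.2 (hfQ.mul_right d)
        have h2 := (h1.add_right b).symm
        rwa [zero_add] at h2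
      have hLs : 1 / (s : ℝ) ≤ ‖ψ.LFunction 1‖ := by
        refine le_trans ?_ (hLlow f ψ hψp hψ2 hψ1)
        have hs0 : (0 : ℝ) < s := by
          have : 0 < s := by omega
          exact_mod_cast this
        have hf0 : (0 : ℝ) < f := by
          have : 0 < f := by omega
          exact_mod_cast this
        rw [div_le_div_iff₀ hs0 hf0, one_mul]
        have h1 : (f : ℝ) ≤ z := by exact_mod_cast hfle
        have h2 : 1 / cL ≤ z := by
          have h3 : (1 / cL : ℝ) ≤ ⌈1 / cL⌉₊ := Nat.le_ceil _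
          have h4 : ((⌈1 / cL⌉₊ : ℕ) : ℝ) ≤ z := by
            have : ⌈1 / cL⌉₊ ≤ z := by omega
            exact_mod_cast this
          linarith
        have h3 : (z : ℝ) ^ 2 ≤ s := by exact_mod_cast hs2
        rw [div_le_iff₀ hcL] at h2
        calc (f : ℝ) ≤ 1 * z := by rw [one_mul]; exact h1
          _ ≤ (z * cL) * z := mul_le_mul_of_nonneg_right h2 hz0.le
          _ = cL * (z : ℝ) ^ 2 := by ring
          _ ≤ cL * s := mul_le_mul_of_nonneg_left h3 hcL.le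
      have hcnt := hplus s (by omega) f χ _ hχ hTe hLs Q b hQ0 hQs hb1 hbQ.le hbco hfQ hχb1
        ((hfilt (16 * (u1 + 1)) (by omega)).trans hϑa) y (by omega) (by linarith) (by omega) hall hQsum t₀ U (by omega) hSh hU4
      obtain ⟨N, hN⟩ : ∃ N : ℕ, N = s ^ (16 * u1) := ⟨_, rfl⟩
      rw [← hN] at hcnt
      obtain ⟨S', hS'⟩ : ∃ S' : Finset ℕ, S' = (Icc 1 N).filter (fun n => N < n * n ∧ (Q * n + b).Prime ∧
        ∀ k ∈ U, k ≠ t₀ → ¬ (Q * n + b + k - t₀).Prime) := ⟨_, rfl⟩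
      rw [← hS'] at hcnt
      have hdz : d ≤ 2 * z := by
        have h1 : d ≤ r + t₀ := by rw [hd]; exact Nat.div_le_self _ _
        omega
      have hnz : ∀ n ∈ S', d + z < n := by
        intro n hn
        rw [hS', mem_filter] at hn
        by_contra hcon
        push Not at hcon
        have h1 : n ≤ s ^ 2 := by
          have h2 : z * z ≤ s := by rw [← sq]; exact hs2
          have h3 : 17 * z ≤ z * z := Nat.mul_le_mul_right _ hz17
          have h4 : s ≤ s ^ 2 := Nat.le_self_pow (by norm_num) s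
          omega
        have h2 : n * n ≤ s ^ 2 * s ^ 2 := Nat.mul_le_mul h1 h1
        have h3 : s ^ 2 * s ^ 2 ≤ N := by
          rw [hN, ← pow_add]
          exact Nat.pow_le_pow_right (by omega) (by omega)
        omega
      have hinj : Set.InjOn (fun n => n - d) (S' : Set ℕ) := by
        intro n hn n' hn' h
        rw [mem_coe] at hn hn'
        have h1 := hnz n hn
        have h2 := hnz n' hn'
        simp only at h
        omega
      have hfin := rows_finC (S := S'.image (fun n => n - d)) (N := N) (K := K0) (K' := K0 + 1 + 1) (G := η * RR y) (y := y)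
        (z := z) (Q := Q) (r := r) (t₀ := t₀) (q := q) (a := a)
        (by omega) ?_ hK1 hKK hQ0 hQz hr (by omega) hyz hqQ hra ?_
      · rw [card_image_of_injOn hinj] at hfin
        have h1 : (s : ℝ) ^ (8 * u1) ≤ ((IsoC z (K0 + 1 + 1) q a (η * RR y)).card : ℝ) :=
          hcnt.trans (by exact_mod_cast hfin)
        have hs1r : (1 : ℝ) ≤ s := by
          have : 1 ≤ s := by omega
          exact_mod_cast this
        have h2 : (z : ℝ) ≤ (s : ℝ) ^ (8 * u1) := by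
          calc (z : ℝ) ≤ s := by exact_mod_cast hzs
            _ ≤ _ := le_self_pow₀ hs1r (by omega)
        have h3 : (1 : ℝ) ≤ ((IsoC z (K0 + 1 + 1) q a (η * RR y)).card : ℝ) := by linarith
        calc (z : ℝ) ≤ ((IsoC z (K0 + 1 + 1) q a (η * RR y)).card : ℝ) := h2.trans h1
          _ ≤ _ := le_self_pow₀ h3 (by norm_num)
      · calc N = s ^ (16 * u1) := hN
          _ ≤ s ^ V := Nat.pow_le_pow_right (by omega) (by omega)
          _ ≤ z ^ (2 * V ^ J * V) := hsV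
          _ ≤ z ^ K0 := Nat.pow_le_pow_right (by omega) (by omega)
      · intro m hm
        rw [mem_image] at hm
        obtain ⟨n, hn, rfl⟩ := hm
        have h1 := hnz n hn
        rw [hS', mem_filter, mem_Icc] at hn
        obtain ⟨⟨n1, n2⟩, n3, n4, n5⟩ := hn
        have e1 : (n - d) * Q + (r + t₀) = Q * n + b := by
          rw [hrd]
          obtain ⟨m, hm⟩ : ∃ m, n = m + d := ⟨n - d, by omega⟩
          rw [hm, Nat.add_sub_cancel]
          ring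
        refine ⟨by omega, by omega, by rw [e1]; exact n4, fun h => hal _ h fun k hk hkt hpr => n5 k hk hkt ?_⟩
        have e2 : Q * n + b + k - t₀ = (n - d) * Q + (r + k) := by omega
        rw [e2]
        exact hpr
    · -- `χ = -1`
      obtain ⟨N, hN⟩ : ∃ N : ℕ, N = s ^ (50 * u2) := ⟨_, rfl⟩
      have hcnt := hminus s (by omega) f χ hχ Q (r + t₀) hQ0 hQs (by omega) (by omega) hco hfQ hχb
        ((hfilt (50 * u2) (by omega)).trans hϑb) y (by omega) (by omega) (by omega) hall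
      rw [← hN] at hcnt
      have hsN : s ≤ N := by rw [hN]; exact Nat.le_self_pow (by omega) s
      have hlogN : Real.log s ≤ Real.log N := Real.log_le_log (by
        have : 0 < s := by omega
        exact_mod_cast this) (by exact_mod_cast hsN)
      have hrow := hrowm N y Q r t₀ U (by omega) (by omega) (by linarith) hQ0 hQsum hSh hU5 hcnt
      refine endSC (c := cm / 2) (N := N) (K := K0) U (by omega) (by nlinarith) ?_ hK1 hKK hQ0 hQz hr (by omega) hyz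
        (by omega) hqQ hra (by positivity) (hroot1 N (by omega)) hal hrow
      calc N = s ^ (50 * u2) := hN
        _ ≤ s ^ V := Nat.pow_le_pow_right (by omega) (by omega)
        _ ≤ z ^ (2 * V ^ J * V) := hsV
        _ ≤ z ^ K0 := Nat.pow_le_pow_right (by omega) (by omega)
  · -- no exceptional modulus
    push Not at hex
    obtain ⟨p₀, hp₀, hnd⟩ : ∃ p₀ : ℕ, p₀.Prime ∧ ∀ f, LOW.Exc zL δ f → ¬ f ∣ q * MM y q p₀ := by
      by_cases hE : ∃ f, LOW.Exc zL δ f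
      · obtain ⟨f, hf⟩ := hE
        obtain ⟨p₀, hp₀, h1⟩ := leave_out (q₁ := f) (q := q) (by have := hf.1; omega) hq.ne' (hex f hf)
        refine ⟨p₀, hp₀, fun g hg => ?_⟩
        rw [huniq g f hg hf]
        exact h1 _ (MM_pos y q p₀).ne' (fun h => ((MM_dvd hp₀).1 h).2.2 rfl)
      · exact ⟨2, Nat.prime_two, fun f hf => absurd ⟨f, hf⟩ hE⟩
    obtain ⟨r, t₀, U, hr, hra, hco, hyt, hty, hUy, hSh, hU, hal⟩ := hdat q hq hqz hqA hqB p₀ hp₀ a ha
    have htz : t₀ ≤ z := hty.trans hqy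
    have hUz : ∀ k ∈ U, k ≤ z := fun k hk => (hUy k hk).trans hqy
    obtain ⟨hQ0, hQ16, hQy, hQsum⟩ := Qfacts (p₀ := p₀) hyd f1 f2 hq hqz
    obtain ⟨Q, hQd⟩ : ∃ Q, Q = q * MM y q p₀ := ⟨_, rfl⟩
    rw [← hQd] at hr hco hal hSh hQ0 hQ16 hQy hQsum
    have hqQ : q ∣ Q := by rw [hQd]; exact Dvd.intro _ rfl
    have hQz : Q ≤ z := (Nat.le_self_pow (by norm_num) Q).trans hQ16
    have hU6 : (U.card : ℝ) ≤ cn1 * (y / Real.log y) :=
      hU.trans (mul_le_mul_of_nonneg_right hc₁c (by positivity))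
    have hQ16L : Q ^ 16 ≤ zL := hQ16.trans (by rw [hzL]; exact Nat.le_self_pow (by norm_num) z)
    have hndQ : ∀ f, LOW.Exc zL δ f → ¬ f ∣ Q := by
      intro f hf
      rw [hQd]
      exact hnd f hf
    obtain ⟨N, hN1, hN2, hcnt⟩ := hne z (by omega) Q (r + t₀) hQ0 hQz (by omega) hco (by
      intro χ hχ σ hσ hσL
      rw [← hzL] at hσL ⊢
      exact hgood Q hQ0 hQ16L hndQ χ hχ σ hσ hσL)
    have hzN4 : z * z ≤ N := by
      calc z * z = z ^ 2 := (sq z).symm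
        _ ≤ z ^ 4 := Nat.pow_le_pow_right (by omega) (by norm_num)
        _ ≤ N := hN1
    have hzN : z ≤ N := by nlinarith
    have hlogN : Real.log z ≤ Real.log N := Real.log_le_log hz0 (by exact_mod_cast hzN)
    have hlN0 : 0 < Real.log N := by linarith
    have hrat := hratio y p₀ Q (by omega) hp₀ hQ0 hQy
    have hcnt' : cn * c4 * (N * (Real.log y / Real.log N)) ≤
        (((Icc 1 N).filter (fun m => N < m * m ∧ (m * Q + (r + t₀)).Prime)).card : ℝ) := by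
      refine le_trans ?_ hcnt
      calc cn * c4 * (N * (Real.log y / Real.log N)) = cn * (N * (c4 * Real.log y / Real.log N)) := by ring
        _ ≤ cn * (N * ((Q : ℝ) / Q.totient / Real.log N)) := by gcongr
    have hrow := hrown N y Q r t₀ U (by omega) (by omega) (by linarith) hQ0 hQsum hSh hU6 hcnt'
    refine endSC (c := cn * c4 / 2) (N := N) (K := K0) U (by omega) hzN4 ?_ hK1 hKK hQ0 hQz hr (by omega) hyz
      (by omega) hqQ hra (by positivity) (hroot2 N (by omega)) hal hrow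
    exact hN2.trans (Nat.pow_le_pow_right (by omega) (by omega))

end Pool.Agent.H92.J
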