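import Pool.Agent.H92.I.Pr

set_option autoImplicit false

/-! The number of pairs of primes, for more general shifts (compare `Pool.Agent.R529.LG.pair_sieve`, library). -/

namespace Pool.Agent.H92.J

open Finset Filter
open Pool.Agent.W41 (JJ JJ_small)
open Pool.Agent.Y835.SC (V V_pos V_le_one V_anti V_primeFactors big_card)
open Pool.Agent.R529.FT (one_sol V_up0 err_le exp_big ex_w log_sum)
open Pool.Agent.R529.LG (V_upD RR)

/-- the primes not dividing `Q` for which two shifts coincide divide a small number -/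
def Sh (Q y k t : ℕ) : Prop := ∃ D : ℕ, 1 ≤ D ∧ D ≤ y ^ 2 ∧ ∀ p : ℕ, p.Prime → ¬ p ∣ Q → k ≡ t [MOD p] → p ∣ D

theorem Sh.add {Q y k t : ℕ} (h : Sh Q y k t) (r : ℕ) : Sh Q y (r + k) (r + t) := by
  obtain ⟨D, h1, h2, h3⟩ := h
  exact ⟨D, h1, h2, fun p hp hpQ he => h3 p hp hpQ (Nat.ModEq.add_left_cancel' r he)⟩

theorem Sh.symm {Q y k t : ℕ} (h : Sh Q y k t) : Sh Q y t k := by
  obtain ⟨D, h1, h2, h3⟩ := h
  exact ⟨D, h1, h2, fun p hp hpQ he => h3 p hp hpQ he.symm⟩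

/-- shifts by multiples of a divisor of `Q` -/
theorem Sh.mul {Q y g k t : ℕ} (hg : g ∣ Q) (hkt : k ≠ t) (hk : k ≤ y ^ 2) (ht : t ≤ y ^ 2) : Sh Q y (g * k) (g * t) := by
  refine ⟨max k t - min k t, by omega, by omega, fun p hp hpQ he => ?_⟩
  have hpg : Nat.gcd p g = 1 := (Nat.Prime.coprime_iff_not_dvd hp).2 (fun h => hpQ (h.trans hg))
  have h1 : k ≡ t [MOD p] := Nat.ModEq.cancel_left_of_coprime hpg he
  rcases le_total k t with h5 | h5
  · rw [max_eq_right h5, min_eq_left h5]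
    exact (Nat.modEq_iff_dvd' h5).1 h1
  · rw [max_eq_left h5, min_eq_right h5]
    exact (Nat.modEq_iff_dvd' h5).1 h1.symm

open Classical in
theorem pair_sieveS : ∃ (E : ℕ) (C : ℝ) (w0 : ℕ), 1 ≤ E ∧ 0 < C ∧ ∀ y w X P h h' : ℕ, w0 ≤ w →
    4 ≤ y → y ≤ w → w ^ E ≤ X → 1 ≤ P →
    ∑ p ∈ P.primeFactors.filter (fun p => y < p), (1 : ℝ) / p ≤ 1 / 2 → Sh P y h h' →
    (((Icc 1 X).filter (fun m => ∀ p : ℕ, p.Prime → y < p → p ≤ w → ¬ p ∣ P →
      ¬ p ∣ m * P + h ∧ ¬ p ∣ m * P + h')).card : ℝ) ≤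
      C * (X * (Real.log y / Real.log w) ^ 2) := by
  obtain ⟨C0, K0, hC0, hK0, HF⟩ := Pool.Agent.TH892.SW.fl_set 2
  obtain ⟨C, hC, HV⟩ := V_upD
  refine ⟨4 * (C0 * C0) + 6, 2 * C ^ 2 + 1, max K0 5, by omega, by positivity, ?_⟩
  intro y w X P h h' hw hy hyw hX hP1 hPs hsh
  have hwK : K0 ≤ w := (le_max_left _ _).trans hw
  have hw5 : 5 ≤ w := (le_max_right _ _).trans hw
  obtain ⟨D, hD1, hDy, hDd⟩ := hsh
  obtain ⟨Q, hQ⟩ : ∃ Q : Finset ℕ, Q = (Ioc y w).filter (fun p => p.Prime ∧ ¬ p ∣ D * P) := ⟨_, rfl⟩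
  have hQp : ∀ p ∈ Q, p.Prime ∧ y < p ∧ p ≤ w ∧ ¬ p ∣ D ∧ ¬ p ∣ P := fun p hp => by
    rw [hQ, mem_filter, mem_Ioc] at hp
    exact ⟨hp.2.1, hp.1.1, hp.1.2, fun hd => hp.2.2 (hd.mul_right P), fun hd => hp.2.2 (hd.mul_left D)⟩
  obtain ⟨R, hR⟩ : ∃ R : ℕ → ℕ → Prop, ∀ p a, R p a ↔ (p ∣ a * P + h ∨ p ∣ a * P + h') :=
    ⟨_, fun _ _ => Iff.rfl⟩
  have hcard : ∀ p ∈ Q, ((range p).filter (fun a => R p a)).card = 2 := by
    intro p hp
    obtain ⟨hpp, hyp, hpw, hpD, hpP⟩ := hQp p hp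
    obtain ⟨a0, ha0, h1⟩ := one_sol hpp hpP h
    obtain ⟨a1, ha1, h2⟩ := one_sol hpp hpP h'
    have hne' : a0 ≠ a1 := by
      intro he
      have h3 := (h1 a0 ha0).2 rfl
      have h4 := (h2 a0 ha0).2 he
      apply hpD
      apply hDd p hpp hpP
      have h5 : a0 * P + h ≡ a0 * P + h' [MOD p] :=
        (Nat.modEq_zero_iff_dvd.2 h3).trans (Nat.modEq_zero_iff_dvd.2 h4).symm
      exact Nat.ModEq.add_left_cancel' _ h5
    have h3 : (range p).filter (fun a => R p a) = {a0, a1} := by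
      ext a
      rw [mem_filter, mem_range, mem_insert, mem_singleton, hR]
      constructor
      · rintro ⟨ha, h4 | h4⟩
        · exact Or.inl ((h1 a ha).1 h4)
        · exact Or.inr ((h2 a ha).1 h4)
      · rintro (h4 | h4)
        · rw [h4]
          exact ⟨ha0, Or.inl ((h1 a0 ha0).2 rfl)⟩
        · rw [h4]
          exact ⟨ha1, Or.inr ((h2 a1 ha1).2 rfl)⟩
    rw [h3, card_pair hne']
  have h1 := HF C0 le_rfl w (by omega) X Q R (fun p hp => by
    obtain ⟨hpp, hyp, hpw, hpD, hpP⟩ := hQp p hp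
    exact ⟨hpp, hpw, (hcard p hp).le⟩)
  have h2 := (abs_le.1 h1).2
  have h3 := err_le C0 C0 K0 w y X hwK hw5 (by omega) hX hyw
  have h4 : ∏ p ∈ Q, (1 - (((range p).filter (fun a => R p a)).card : ℝ) / p) ≤ (V Q) ^ 2 := by
    unfold V
    rw [← prod_pow]
    refine prod_le_prod (fun p hp => ?_) fun p hp => ?_
    · rw [hcard p hp]
      have h5 : (2 : ℝ) ≤ p := by exact_mod_cast (hQp p hp).1.two_le
      rw [sub_nonneg]
      push_cast
      rw [div_le_one (by linarith)]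
      exact h5
    · rw [hcard p hp]
      push_cast
      have h5 : (0 : ℝ) ≤ (1 / (p : ℝ)) ^ 2 := by positivity
      have h6 : (2 : ℝ) / p = 2 * (1 / (p : ℝ)) := by ring
      rw [h6]
      nlinarith
  have h5 : V Q ≤ C * (Real.log y / Real.log w) := by
    rw [hQ]; exact HV y w hy hyw D P hD1 hDy hP1 hPs
  have h6 : 0 < V Q := V_pos fun p hp => (hQp p hp).1
  have h7 : (V Q) ^ 2 ≤ C ^ 2 * (Real.log y / Real.log w) ^ 2 := by
    rw [← mul_pow]
    exact pow_le_pow_left₀ h6.le h5 2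
  have h8 : (0 : ℝ) ≤ X := Nat.cast_nonneg X
  have h9 : (1 / 2 : ℝ) ^ C0 ≤ 1 := pow_le_one₀ (by norm_num) (by norm_num)
  obtain ⟨Z, hZ⟩ : ∃ Z : ℝ, Z = ∏ p ∈ Q, (1 - (((range p).filter
    (fun a => R p a)).card : ℝ) / p) := ⟨_, rfl⟩
  have hZ0 : 0 ≤ Z := by
    rw [hZ]
    refine prod_nonneg fun p hp => ?_
    rw [hcard p hp, sub_nonneg]
    have h5 : (2 : ℝ) ≤ p := by exact_mod_cast (hQp p hp).1.two_le
    push_cast
    rw [div_le_one (by linarith)]
    exact h5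
  rw [← hZ] at h2 h4
  have h10 : (((Icc 1 X).filter (fun m => ∀ p : ℕ, p.Prime → y < p → p ≤ w → ¬ p ∣ P →
      ¬ p ∣ m * P + h ∧ ¬ p ∣ m * P + h')).card : ℝ) ≤
      (((Icc 1 X).filter (fun n => ∀ p ∈ Q, ¬ R p (n % p))).card : ℝ) := by
    refine Nat.cast_le.2 (card_le_card fun m hm => ?_)
    rw [mem_filter] at hm ⊢
    refine ⟨hm.1, fun p hp hc => ?_⟩
    obtain ⟨hpp, hyp, hpw, hpD, hpP⟩ := hQp p hp
    have h11 := hm.2 p hpp hyp hpw hpP
    rw [hR] at hc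
    have h12 : ∀ g : ℕ, (p ∣ m % p * P + g ↔ p ∣ m * P + g) := by
      intro g
      have h13 : m % p * P + g ≡ m * P + g [MOD p] :=
        ((Nat.mod_modEq m p).mul_right P).add_right g
      exact ⟨fun h => (Nat.modEq_zero_iff_dvd.1 (h13.symm.trans (Nat.modEq_zero_iff_dvd.2 h))),
        fun h => (Nat.modEq_zero_iff_dvd.1 (h13.trans (Nat.modEq_zero_iff_dvd.2 h)))⟩
    rcases hc with hc | hc
    · exact h11.1 ((h12 h).1 hc)
    · exact h11.2 ((h12 h').1 hc)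
  have h11 : (X : ℝ) * Z ≤ X * (C ^ 2 * (Real.log y / Real.log w) ^ 2) :=
    mul_le_mul_of_nonneg_left (h4.trans h7) h8
  have h12 : (1 / 2 : ℝ) ^ C0 * (X * Z) ≤ 1 * (X * Z) :=
    mul_le_mul_of_nonneg_right h9 (by positivity)
  have h13 : (((Icc 1 X).filter (fun n => ∀ p ∈ Q, ¬ R p (n % p))).card : ℝ) ≤
      2 * (X * Z) + X * (Real.log y / Real.log w) ^ 2 := by
    have h14 := h2
    linarith
  calc _ ≤ _ := h10
    _ ≤ _ := h13
    _ ≤ 2 * (X * (C ^ 2 * (Real.log y / Real.log w) ^ 2)) + X * (Real.log y / Real.log w) ^ 2 := by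
        linarith
    _ = _ := by ring

theorem pair_cntS : ∃ (C : ℝ) (N0 : ℕ), 0 < C ∧ ∀ N y P h h' : ℕ, N0 ≤ N → 4 ≤ y → (y : ℝ) ≤ Real.log N → 1 ≤ P →
    ∑ p ∈ P.primeFactors.filter (fun p => y < p), (1 : ℝ) / p ≤ 1 / 2 → Sh P y h h' →
    (((Icc 1 N).filter (fun m => N < m * m ∧ (m * P + h).Prime ∧ (m * P + h').Prime)).card : ℝ) ≤
      C * (N * (Real.log y / Real.log N) ^ 2) := by
  classical
  obtain ⟨E, C2, w0, hE, hC2, HS⟩ := pair_sieveS
  obtain ⟨Y1, hY1, HW⟩ := ex_w (4 * E) (max w0 2) (by omega)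
  have hE0 : (0 : ℝ) < E := by exact_mod_cast hE
  obtain ⟨z2, hz2⟩ := eventually_atTop.1 ((Real.tendsto_log_atTop.comp
    tendsto_natCast_atTop_atTop).eventually (exp_big (2 * (4 * E : ℕ)) (by positivity)))
  refine ⟨C2 * (8 * E) ^ 2, max (max Y1 z2) 3, by positivity, ?_⟩
  intro N y P h h' hN hy hyN hP0 hPs hsh
  have hzz : Y1 ≤ N ∧ z2 ≤ N ∧ 3 ≤ N := by omega
  obtain ⟨hz1, hz2', hz3⟩ := hzz
  obtain ⟨w, hw0, hwE, hlw⟩ := HW N hz1
  have hw0' : w0 ≤ w := (le_max_left _ _).trans hw0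
  have hw2 : 2 ≤ w := (le_max_right _ _).trans hw0
  have hlw0 : 0 < Real.log w := Real.log_pos (by exact_mod_cast (by omega : 1 < w))
  have hwr : (0 : ℝ) < w := by exact_mod_cast (by omega : 0 < w)
  have hly : 0 < Real.log y := Real.log_pos (by exact_mod_cast (by omega : 1 < y))
  have hlN : 0 < Real.log N := Real.log_pos (by exact_mod_cast (by omega : 1 < N))
  have hyw : y ≤ w := by
    have h1 := hz2 N hz2'
    simp only [Function.comp] at h1
    have h2 : Real.exp (Real.log N / (2 * (4 * E : ℕ))) ≤ Real.exp (Real.log w) :=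
      Real.exp_le_exp.2 hlw
    rw [Real.exp_log hwr] at h2
    exact_mod_cast (hyN.trans h1).trans h2
  have hwEN : w ^ E ≤ N := (Nat.pow_le_pow_right (by omega) (by omega)).trans hwE
  have h1 := HS y w N P h h' hw0' hy hyw hwEN hP0 hPs hsh
  have hw4 : w ^ 4 ≤ N := (Nat.pow_le_pow_right (by omega) (by omega)).trans hwE
  have h2 : (((Icc 1 N).filter (fun m => N < m * m ∧ (m * P + h).Prime ∧ (m * P + h').Prime)).card : ℝ) ≤
      (((Icc 1 N).filter (fun m => ∀ p : ℕ, p.Prime → y < p → p ≤ w → ¬ p ∣ P →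
      ¬ p ∣ m * P + h ∧ ¬ p ∣ m * P + h')).card : ℝ) := by
    refine Nat.cast_le.2 (card_le_card fun m hm => ?_)
    rw [mem_filter] at hm ⊢
    obtain ⟨hm1, hm2, hm3, hm4⟩ := hm
    have hwm : w < m := by
      by_contra hcon
      push Not at hcon
      have h3 : m * m ≤ w * w := Nat.mul_le_mul hcon hcon
      have h4 : w * w ≤ w ^ 4 := by
        calc w * w = w ^ 2 := (sq w).symm
          _ ≤ w ^ 4 := Nat.pow_le_pow_right (by omega) (by norm_num)
      omega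
    have hmP : m ≤ m * P := Nat.le_mul_of_pos_right m hP0
    refine ⟨hm1, fun p hp hyp hpw _ => ⟨fun hd => ?_, fun hd => ?_⟩⟩
    · have := (Nat.prime_dvd_prime_iff_eq hp hm3).1 hd
      omega
    · have := (Nat.prime_dvd_prime_iff_eq hp hm4).1 hd
      omega
  refine h2.trans (h1.trans ?_)
  have h6 : Real.log y / Real.log w ≤ 8 * E * (Real.log y / Real.log N) := by
    rw [mul_div_assoc', div_le_div_iff₀ hlw0 hlN]
    rw [div_le_iff₀ (by positivity)] at hlw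
    push_cast at hlw
    calc Real.log y * Real.log N ≤ Real.log y * (Real.log w * (2 * (4 * E))) :=
          mul_le_mul_of_nonneg_left hlw hly.le
      _ = _ := by ring
  calc C2 * (N * (Real.log y / Real.log w) ^ 2) ≤ C2 * (N * (8 * E * (Real.log y / Real.log N)) ^ 2) := by
        apply mul_le_mul_of_nonneg_left _ hC2.le
        apply mul_le_mul_of_nonneg_left _ (Nat.cast_nonneg N)
        exact pow_le_pow_left₀ (by positivity) h6 2
    _ = _ := by ring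

/-- the rows without a second prime -/
theorem good_rowsS (c : ℝ) (hc : 0 < c) : ∃ (c₁ : ℝ) (N0 : ℕ), 0 < c₁ ∧ ∀ N y P r t₀ : ℕ, ∀ U : Finset ℕ, N0 ≤ N → 4 ≤ y →
    (y : ℝ) ≤ Real.log N → 1 ≤ P → ∑ p ∈ P.primeFactors.filter (fun p => y < p), (1 : ℝ) / p ≤ 1 / 2 →
    (∀ k ∈ U, k ≠ t₀ → Sh P y k t₀) → (U.card : ℝ) ≤ c₁ * (y / Real.log y) →
    c * (N * (Real.log y / Real.log N)) ≤ (((Icc 1 N).filter (fun m => N < m * m ∧ (m * P + (r + t₀)).Prime)).card : ℝ) →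
    c / 2 * (N * (Real.log y / Real.log N)) ≤ (((Icc 1 N).filter (fun m => N < m * m ∧ (m * P + (r + t₀)).Prime ∧
      ∀ k ∈ U, k ≠ t₀ → ¬ (m * P + (r + k)).Prime)).card : ℝ) := by
  classical
  obtain ⟨C, N0, hC, H⟩ := pair_cntS
  refine ⟨c / (2 * C), N0 + 3, by positivity, ?_⟩
  intro N y P r t₀ U hN hy hyN hP hPs hUy hU hcnt
  have hly : 0 < Real.log y := Real.log_pos (by exact_mod_cast (by omega : 1 < y))
  have hlN : 0 < Real.log N := Real.log_pos (by exact_mod_cast (by omega : 1 < N))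
  have hy0 : (0 : ℝ) < y := by exact_mod_cast (by omega : 0 < y)
  have hN0 : (0 : ℝ) < N := by exact_mod_cast (by omega : 0 < N)
  obtain ⟨S, hS⟩ : ∃ S : Finset ℕ, S = (Icc 1 N).filter (fun m => N < m * m ∧ (m * P + (r + t₀)).Prime) := ⟨_, rfl⟩
  obtain ⟨Gd, hGd⟩ : ∃ Gd : Finset ℕ, Gd = (Icc 1 N).filter (fun m => N < m * m ∧ (m * P + (r + t₀)).Prime ∧
      ∀ k ∈ U, k ≠ t₀ → ¬ (m * P + (r + k)).Prime) := ⟨_, rfl⟩
  rw [← hS] at hcnt
  rw [← hGd]
  have hcov : S ⊆ Gd ∪ (U.erase t₀).biUnion (fun k => (Icc 1 N).filter (fun m => N < m * m ∧ (m * P + (r + t₀)).Prime ∧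
      (m * P + (r + k)).Prime)) := by
    intro m hm
    rw [hS, mem_filter] at hm
    rw [mem_union, mem_biUnion]
    by_cases h : ∀ k ∈ U, k ≠ t₀ → ¬ (m * P + (r + k)).Prime
    · left
      rw [hGd, mem_filter]
      exact ⟨hm.1, hm.2.1, hm.2.2, h⟩
    · right
      push Not at h
      obtain ⟨k, hk, hkt, hkp⟩ := h
      exact ⟨k, mem_erase.2 ⟨hkt, hk⟩, mem_filter.2 ⟨hm.1, hm.2.1, hm.2.2, hkp⟩⟩
  have h1 : (S.card : ℝ) ≤ Gd.card + ∑ k ∈ U.erase t₀, (((Icc 1 N).filter (fun m => N < m * m ∧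
      (m * P + (r + t₀)).Prime ∧ (m * P + (r + k)).Prime)).card : ℝ) := by
    have h2 := (card_le_card hcov).trans ((card_union_le _ _).trans (Nat.add_le_add_left card_biUnion_le _))
    exact_mod_cast h2
  have h2 : ∀ k ∈ U.erase t₀, (((Icc 1 N).filter (fun m => N < m * m ∧
      (m * P + (r + t₀)).Prime ∧ (m * P + (r + k)).Prime)).card : ℝ) ≤ C * (N * (Real.log y / Real.log N) ^ 2) := by
    intro k hk
    rw [mem_erase] at hk
    exact H N y P (r + t₀) (r + k) (by omega) hy hyN hP hPs ((hUy k hk.2 hk.1).symm.add r)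
  have h3 : ∑ k ∈ U.erase t₀, (((Icc 1 N).filter (fun m => N < m * m ∧
      (m * P + (r + t₀)).Prime ∧ (m * P + (r + k)).Prime)).card : ℝ) ≤ c / 2 * (N * (Real.log y / Real.log N)) := by
    refine (sum_le_card_nsmul _ _ _ h2).trans ?_
    rw [nsmul_eq_mul]
    have h4 : ((U.erase t₀).card : ℝ) ≤ c / (2 * C) * (y / Real.log y) :=
      le_trans (by exact_mod_cast card_le_card (erase_subset _ _)) hU
    calc ((U.erase t₀).card : ℝ) * (C * (N * (Real.log y / Real.log N) ^ 2)) ≤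
        c / (2 * C) * (y / Real.log y) * (C * (N * (Real.log y / Real.log N) ^ 2)) :=
          mul_le_mul_of_nonneg_right h4 (by positivity)
      _ = c / 2 * (N * (Real.log y / Real.log N)) * (y / Real.log N) := by
          field_simp
      _ ≤ c / 2 * (N * (Real.log y / Real.log N)) * 1 := by
          apply mul_le_mul_of_nonneg_left _ (by positivity)
          rw [div_le_one hlN]
          exact hyN
      _ = _ := mul_one _
  linarith

end Pool.Agent.H92.J
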