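import Pool.Agent.H92.I.RtP
import Pool.Agent.H92.J.Pr

set_option autoImplicit false

/-! The ratio of the sieve products, for more general shifts. -/

open Finset Filter Topology

namespace Pool.Agent.H92.J

open Pool.Agent.H92.G Pool.Agent.H92.I
open Pool.Agent.Y835.SC (V_anti)

variable {f : ℕ} {χ : ℕ → ℝ}

/-- the ratio of the products -/
theorem V_ratioS : ∃ C2 : ℝ, 0 < C2 ∧ ∀ (f : ℕ) (χ : ℕ → ℝ), Chr f χ → ∀ Q b t₀ k y z0 w : ℕ, 0 < Q → b.Coprime Q → 4 ≤ y →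
    1 ≤ z0 → z0 ≤ y → y ≤ w → Sh Q y k t₀ →
    ∑ p ∈ Q.primeFactors.filter (fun p => y < p), (1 : ℝ) / p ≤ 1 / 2 →
    ∀ P : Finset ℕ, (∀ p, p ∈ P ↔ p.Prime ∧ z0 < p ∧ p ≤ w) → (∀ p ∈ P, 0 ≤ 1 - gg χ Q b (Ri Q b) p) →
    (∀ p ∈ P, 0 ≤ 1 - gg χ Q b (Rt2 Q b t₀ k) p) →
    ∏ p ∈ P, (1 - gg χ Q b (Rt2 Q b t₀ k) p) ≤
      (∏ p ∈ P, (1 - gg χ Q b (Ri Q b) p)) * (C2 * (Real.log y / Real.log w)) := by
  classical
  obtain ⟨C, hC, HV⟩ := Pool.Agent.R529.LG.V_upD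
  refine ⟨C * Real.exp 2, by positivity, ?_⟩
  intro f χ h Q b t₀ k y z0 w hQ hb hy hz0 hz0y hyw hsh hQs P hP h1 h2
  have step : ∏ p ∈ P, (1 - gg χ Q b (Rt2 Q b t₀ k) p) ≤
      ∏ p ∈ P, ((1 - gg χ Q b (Ri Q b) p) *
      (if ¬ p ∣ Q ∧ ¬ k ≡ t₀ [MOD p] then 1 - 1 / (p : ℝ) + 1 / (p : ℝ) ^ 2 else 1)) :=
    Finset.prod_le_prod h2 fun p hp => loc_ratio h ((hP p).1 hp).1 hb
  rw [prod_mul_distrib] at step
  refine step.trans ?_
  apply mul_le_mul_of_nonneg_left _ (prod_nonneg h1)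
  obtain ⟨P', hP'⟩ : ∃ P' : Finset ℕ, P' = P.filter (fun p => ¬ p ∣ Q ∧ ¬ k ≡ t₀ [MOD p]) := ⟨_, rfl⟩
  have hP'm : ∀ p ∈ P', p.Prime ∧ z0 < p ∧ p ≤ w := by
    intro p hp
    rw [hP', mem_filter] at hp
    exact (hP p).1 hp.1
  rw [← prod_filter, ← hP']
  -- the factors
  have h3 : ∏ p ∈ P', (1 - 1 / (p : ℝ) + 1 / (p : ℝ) ^ 2) ≤ ∏ p ∈ P', ((1 - 1 / (p : ℝ)) * Real.exp (2 / (p : ℝ) ^ 2)) := by
    apply Finset.prod_le_prod
    · intro p hp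
      have hp2 : (2 : ℝ) ≤ p := by exact_mod_cast (hP'm p hp).1.two_le
      have : 1 / (p : ℝ) ≤ 1 := by rw [div_le_one (by linarith)]; linarith
      have h4 : 0 ≤ 1 / (p : ℝ) ^ 2 := by positivity
      linarith
    · intro p hp
      have hp2 : (2 : ℝ) ≤ p := by exact_mod_cast (hP'm p hp).1.two_le
      have hp0 : (0 : ℝ) < p := by linarith
      have h5 : 1 + 2 / (p : ℝ) ^ 2 ≤ Real.exp (2 / (p : ℝ) ^ 2) := by
        have := Real.add_one_le_exp (2 / (p : ℝ) ^ 2)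
        linarith
      have h6 : 0 ≤ 1 - 1 / (p : ℝ) := by
        rw [sub_nonneg, div_le_one hp0]; linarith
      refine le_trans ?_ (mul_le_mul_of_nonneg_left h5 h6)
      obtain ⟨x, hx⟩ : ∃ x, x = 1 / (p : ℝ) := ⟨_, rfl⟩
      have hx2 : x ≤ 1 / 2 := by
        rw [hx]
        exact one_div_le_one_div_of_le (by norm_num) hp2
      have hx0 : 0 < x := by rw [hx]; positivity
      have e1 : 1 / (p : ℝ) ^ 2 = x ^ 2 := by rw [hx]; ring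
      have e2 : 2 / (p : ℝ) ^ 2 = 2 * x ^ 2 := by rw [hx]; ring
      rw [e1, e2, ← hx]
      nlinarith [mul_nonneg (sq_nonneg x) (show 0 ≤ 1 / 2 - x by linarith)]
  refine h3.trans ?_
  rw [prod_mul_distrib, ← Real.exp_sum]
  have h4 : ∏ p ∈ P', (1 - 1 / (p : ℝ)) ≤ C * (Real.log y / Real.log w) := by
    obtain ⟨D, hD1, hDy, hDd⟩ := hsh
    refine le_trans ?_ (HV y w hy hyw D Q hD1 hDy hQ hQs)
    have hsub : (Ioc y w).filter (fun p => p.Prime ∧ ¬ p ∣ D * Q) ⊆ P' := by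
      intro p hp
      rw [mem_filter, mem_Ioc] at hp
      obtain ⟨⟨g1, g2⟩, g3, g4⟩ := hp
      rw [hP', mem_filter, hP]
      refine ⟨⟨g3, by omega, g2⟩, fun hd => g4 (hd.mul_left D), fun hd => g4 ?_⟩
      exact (hDd p g3 (fun hd' => g4 (hd'.mul_left D)) hd).mul_right Q
    have h5 := V_anti hsub (fun p hp => (hP'm p hp).1)
    unfold Pool.Agent.Y835.SC.V at h5
    exact h5
  have h5 : ∑ p ∈ P', 2 / (p : ℝ) ^ 2 ≤ 2 := by
    have h6 : ∑ p ∈ P', 2 / (p : ℝ) ^ 2 ≤ ∑ p ∈ Ioc z0 w, 2 / (p : ℝ) ^ 2 := by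
      apply sum_le_sum_of_subset_of_nonneg
      · intro p hp
        rw [mem_Ioc]
        exact (hP'm p hp).2
      · intro p _ _
        positivity
    have h7 := sum_inv_sq (D := w) (y := z0) (by omega)
    have h8 : ∑ p ∈ Ioc z0 w, 2 / (p : ℝ) ^ 2 = 2 * ∑ p ∈ Ioc z0 w, 1 / ((p : ℝ) * p) := by
      rw [mul_sum]
      apply sum_congr rfl
      intro p _
      rw [sq]; ring
    have h9 : 1 / (z0 : ℝ) ≤ 1 := by
      rw [div_le_one (by exact_mod_cast hz0)]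
      exact_mod_cast hz0
    rw [h8] at h6
    linarith
  have h6 : 0 ≤ ∏ p ∈ P', (1 - 1 / (p : ℝ)) := by
    apply prod_nonneg
    intro p hp
    have hp2 : (2 : ℝ) ≤ p := by exact_mod_cast (hP'm p hp).1.two_le
    rw [sub_nonneg, div_le_one (by linarith)]
    linarith
  calc (∏ p ∈ P', (1 - 1 / (p : ℝ))) * Real.exp (∑ p ∈ P', 2 / (p : ℝ) ^ 2) ≤
      (C * (Real.log y / Real.log w)) * Real.exp 2 := by
        apply mul_le_mul h4 (Real.exp_le_exp.2 h5) (Real.exp_pos _).le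
        exact h6.trans h4
    _ = _ := by ring

end Pool.Agent.H92.J
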